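import Pool.Agent.H83.VU.TargetsG

set_option autoImplicit false

open Finset Pool.Agent.H83.VU

namespace Pool.Agent.H20.VU

theorem sin_lower {t : ℝ} (h0 : 0 < |t|) (h1 : |t| ≤ 1 / 10) : 9 / 10 * |t| ≤ |Real.sin t| := by
  have h2 : |t| - |t| ^ 3 / 6 < Real.sin |t| := Real.sin_gt_sub_cube h0
  have h3 : |Real.sin t| = |Real.sin (|t|)| := by
    rcases abs_cases t with ⟨h, _⟩ | ⟨h, _⟩
    · rw [h]
    · rw [h, Real.sin_neg, abs_neg]
  rw [h3]
  refine le_trans ?_ (le_abs_self _)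
  have h4 : |t| ^ 3 ≤ (1 / 10) ^ 2 * |t| := by
    have h5 : |t| ^ 2 ≤ (1 / 10) ^ 2 := by
      apply pow_le_pow_left₀ (abs_nonneg t) h1
    nlinarith [abs_nonneg t]
  nlinarith

theorem pf_ROT : T_ROT := by
  intro θ i₀ m S h0 h1 h2 hS hz
  set z : ℂ := Complex.exp ((θ : ℂ) * Complex.I) with hzd
  have hpow : ∀ i : ℕ, Complex.exp ((θ * i : ℝ) * Complex.I) = z ^ i := by
    intro i
    rw [hzd, ← Complex.exp_nat_mul]
    congr 1
    push_cast
    ring
  have hnz : ‖z‖ = 1 := by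
    rw [hzd]
    exact Complex.norm_exp_ofReal_mul_I θ
  have hz1 : 9 / 10 * |θ| ≤ ‖z - 1‖ := by
    refine (sin_lower h0 h1).trans ?_
    have h3 : (z - 1).im = Real.sin θ := by
      rw [hzd, Complex.sub_im, Complex.one_im, sub_zero, Complex.exp_ofReal_mul_I_im]
    rw [← h3]
    exact Complex.abs_im_le_norm _
  have hz0 : 0 < ‖z - 1‖ := by
    have : 0 < 9 / 10 * |θ| := by positivity
    linarith
  -- the geometric sum
  have hgs : (∑ i ∈ Ico i₀ (i₀ + m), z ^ i) * (z - 1) = z ^ i₀ * (z ^ m - 1) := by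
    rw [Finset.sum_Ico_eq_sum_range]
    have h4 : ∀ i ∈ range (i₀ + m - i₀), z ^ (i₀ + i) = z ^ i₀ * z ^ i := fun i _ => pow_add _ _ _
    rw [Finset.sum_congr rfl h4, ← Finset.mul_sum, mul_assoc, geom_sum_mul]
    congr 3
    omega
  have hng : ‖∑ i ∈ Ico i₀ (i₀ + m), z ^ i‖ * ‖z - 1‖ ≤ 2 := by
    rw [← norm_mul, hgs, norm_mul, norm_pow, hnz, one_pow, one_mul]
    refine (norm_sub_le _ _).trans ?_
    rw [norm_pow, hnz, one_pow, norm_one]
    norm_num
  have hm : 0 < (m : ℝ) := by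
    by_contra h
    have : (m : ℝ) = 0 := le_antisymm (not_lt.1 h) (Nat.cast_nonneg m)
    rw [this, zero_mul] at h2
    linarith
  have hng2 : ‖∑ i ∈ Ico i₀ (i₀ + m), z ^ i‖ ≤ 3 / 20 * m := by
    have h5 : ‖∑ i ∈ Ico i₀ (i₀ + m), z ^ i‖ * (9 / 10 * |θ|) ≤ 2 :=
      (mul_le_mul_of_nonneg_left hz1 (norm_nonneg _)).trans hng
    by_contra h6
    push Not at h6
    have h7 : 3 / 20 * m * (9 / 10 * |θ|) < ‖∑ i ∈ Ico i₀ (i₀ + m), z ^ i‖ * (9 / 10 * |θ|) :=
      mul_lt_mul_of_pos_right h6 (by positivity)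
    nlinarith
  -- the real parts
  have hre : (3 / 2 * S.card - m : ℝ) ≤ (∑ i ∈ Ico i₀ (i₀ + m), z ^ i).re := by
    rw [Complex.re_sum, ← Finset.sum_sdiff hS]
    have h8 : (S.card : ℝ) * (1 / 2) ≤ ∑ i ∈ S, (z ^ i).re := by
      rw [← nsmul_eq_mul]
      apply Finset.card_nsmul_le_sum
      intro i hi
      have h9 := hz i hi
      rw [hpow] at h9
      have h10 : |(z ^ i - 1).re| ≤ 1 / 2 := (Complex.abs_re_le_norm _).trans h9
      rw [Complex.sub_re, Complex.one_re] at h10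
      linarith [(abs_le.1 h10).1]
    have h11 : ((Ico i₀ (i₀ + m) \ S).card : ℝ) * (-1) ≤ ∑ i ∈ Ico i₀ (i₀ + m) \ S, (z ^ i).re := by
      rw [← nsmul_eq_mul]
      apply Finset.card_nsmul_le_sum
      intro i _
      have h12 : |(z ^ i).re| ≤ 1 := by
        refine (Complex.abs_re_le_norm _).trans ?_
        rw [norm_pow, hnz, one_pow]
      exact (abs_le.1 h12).1
    have h13 : ((Ico i₀ (i₀ + m) \ S).card : ℝ) = m - S.card := by
      rw [Finset.card_sdiff_of_subset hS, Nat.card_Ico, Nat.cast_sub]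
      · congr 1
        norm_num
      · have := Finset.card_le_card hS
        rwa [Nat.card_Ico] at this
    rw [h13] at h11
    linarith
  have hfin := hre.trans ((Complex.re_le_norm _).trans hng2)
  linarith

end Pool.Agent.H20.VU
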